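import Pool.Agent.helper43.BQ.B9
import Pool.Agent.helper4.BQ.B5a
import Pool.Agent.helper57.BQ.B3
import Pool.Agent.helper76.BQ.T1

/-!
Part B of project bq, module B9, final form.
-/

open Matrix Complex

namespace Pool.Agent.helper76.BQ

variable {F : Type} [Field F] [NumberField F]

/-- B9: take for `φ` the indicator of `e_α + m O_F^3` with `m` large: the term `x = e_α` dominates -/
theorem wedge_ne {κ d : F} {v0 : F →+* ℝ} (hd : Data κ d v0) {δa δb : Fin 1 → F}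
    {Sa Ma Sb Mb : (F →+* ℝ) → Matrix (Fin 1) (Fin 1) ℝ} (ha : MajAll δa v0 Sa Ma) (hb : MajAll δb v0 Sb Mb) :
    ∃ φa φb : (Fin 1 → Fin 3 → F) → ℂ, IsSchw φa ∧ IsSchw φb ∧
      th1 κ d v0 Ma φa 0 0 * th1 κ d v0 Mb φb 0 1 - th1 κ d v0 Ma φa 0 1 * th1 κ d v0 Mb φb 0 0 ≠ 0 :=
  wedge_ne_of (fun _ _ hN _ hZ φ ξ k => siegel_summable hN hZ φ ξ k)
    (fun hd δ hδ => lb_exists hd δ hδ) (fun hd _ _ _ _ hL _ _ hM _ hz => Zm_siegel hd hL hM hz) hd ha hb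

end Pool.Agent.helper76.BQ
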