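import Pool.Agent.helper76.BQ.BGood
import Pool.Agent.helper20.BQ.B5b

/-!
Part B of project bq, module B9: non vanishing of a wedge product of theta 1-forms at the centre of the ball.
-/

open Matrix Complex Filter Topology

namespace Pool.Agent.helper76.BQ

/-- statement of `siegel_summable` -/
def B9_T1b : Prop := ∀ (g N : ℕ), 0 < N → ∀ (Z : Matrix (Fin g) (Fin g) ℂ), IsSiegel Z →
  ∀ (φ : Sch g N) (ξ : Fin g → ℂ) (k : ℕ),
    Summable (fun n : Fin g → ℤ => ‖φ (red N n)‖ * (1 + ∑ i, |(n i : ℝ)|) ^ k *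
      ‖cexp (-(Real.pi : ℂ) * qf Z (pt N n) + 2 * (Real.pi : ℂ) * I * ∑ i, ξ i * pt N n i)‖)

variable {F : Type} [Field F] [NumberField F]

open Classical in
/-- the indicator function of `e + m O_F^3` -/
noncomputable def B9_phi (e : Fin 1 → Fin 3 → F) (m : ℕ) : (Fin 1 → Fin 3 → F) → ℂ := fun x =>
  if ∃ y : Fin 1 → Fin 3 → F, (∀ l i, IsIntegral ℤ (y l i)) ∧ x = e + (m : F) • y then 1 else 0

omit [NumberField F] in
theorem B9_schw {e : Fin 1 → Fin 3 → F} (he : ∀ l i, IsIntegral ℤ (e l i)) {m : ℕ} (hm : 0 < m) :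
    IsSchw (B9_phi e m) := by
  have hmi : IsIntegral ℤ ((m : F)) := by
    have := isIntegral_algebraMap (R := ℤ) (A := F) (x := (m : ℤ))
    simpa using this
  refine ⟨m, hm, ?_, ?_⟩
  · intro x hx l i
    unfold B9_phi at hx
    split_ifs at hx with h
    · obtain ⟨y, hy, rfl⟩ := h
      refine hmi.mul ?_
      simp only [Pi.add_apply, Pi.smul_apply, smul_eq_mul]
      exact (he l i).add (hmi.mul (hy l i))
    · exact absurd rfl hx
  · intro x y hy
    unfold B9_phi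
    congr 1
    apply propext
    constructor
    · rintro ⟨w, hw, h⟩
      refine ⟨w - y, fun l i => (hw l i).sub (hy l i), ?_⟩
      rw [smul_sub, ← add_sub_assoc, ← h, add_sub_cancel_right]
    · rintro ⟨w, hw, h⟩
      refine ⟨w + y, fun l i => (hw l i).add (hy l i), ?_⟩
      rw [smul_add, ← add_assoc, ← h]

/-- the point with the given integral coordinates -/
noncomputable def B9_pt {g : ℕ} (bas : Fin g → Fin 1 → Fin 3 → F) (n : Fin g → ℤ) : Fin 1 → Fin 3 → F :=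
  ∑ i, (n i : F) • bas i

omit [NumberField F] in
theorem B9_pt_apply {g : ℕ} (bas : Fin g → Fin 1 → Fin 3 → F) (n : Fin g → ℤ) (l : Fin 1) (a : Fin 3) :
    B9_pt bas n l a = ∑ i, (n i : F) * bas i l a := by
  unfold B9_pt
  rw [Finset.sum_apply, Finset.sum_apply]
  rfl

theorem B9_inj {d : F} {δ : Fin 1 → F} {g : ℕ} {bas dua : Fin g → Fin 1 → Fin 3 → F}
    (hL : LB d δ bas dua) : Function.Injective (B9_pt bas) := by
  intro n n' h
  have h1 : (fun i => ((n i : ℝ) - (n' i : ℝ))) = 0 := by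
    apply hL.inj
    intro v l a
    have h2 : v (B9_pt bas n l a) = v (B9_pt bas n' l a) := by rw [h]
    rw [B9_pt_apply, B9_pt_apply, map_sum, map_sum] at h2
    simp only [map_mul, map_intCast] at h2
    simp only [sub_mul, Finset.sum_sub_distrib]
    rw [h2, sub_self]
  funext i
  have h3 := congrFun h1 i
  simp only [Pi.zero_apply] at h3
  have h4 : (n i : ℝ) = (n' i : ℝ) := by linarith
  exact_mod_cast h4

theorem B9_lin {g : ℕ} (bas : Fin g → Fin 1 → Fin 3 → F) (n n' : Fin g → ℤ) (m : ℕ) :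
    B9_pt bas n + (m : F) • B9_pt bas n' = B9_pt bas (fun i => n i + (m : ℤ) * n' i) := by
  funext l a
  simp only [Pi.add_apply, Pi.smul_apply, smul_eq_mul, B9_pt_apply, Finset.mul_sum]
  rw [← Finset.sum_add_distrib]
  apply Finset.sum_congr rfl
  intro i _
  push_cast
  ring

theorem B9_phi_pt {d : F} {δ : Fin 1 → F} {g : ℕ} {bas dua : Fin g → Fin 1 → Fin 3 → F}
    (hL : LB d δ bas dua) (n₀ n : Fin g → ℤ) :
    ∀ᶠ m : ℕ in atTop, B9_phi (B9_pt bas n₀) (m + 1) (B9_pt bas n) = if n = n₀ then 1 else 0 := by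
  by_cases h : n = n₀
  · subst h
    filter_upwards with m
    rw [if_pos rfl]
    unfold B9_phi
    rw [if_pos]
    exact ⟨0, fun l i => isIntegral_zero, by simp⟩
  · obtain ⟨i, hi⟩ := Function.ne_iff.1 h
    filter_upwards [eventually_ge_atTop (n i - n₀ i).natAbs] with m hm
    rw [if_neg h]
    unfold B9_phi
    rw [if_neg]
    rintro ⟨y, hy, hy2⟩
    obtain ⟨c, hc⟩ := (hL.int_iff y).1 hy
    have hc' : y = B9_pt bas c := hc
    rw [hc', B9_lin] at hy2
    have h2 := congrFun (B9_inj hL hy2) i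
    have h3 : n i - n₀ i = ((m + 1 : ℕ) : ℤ) * c i := by rw [h2]; ring
    have h4 : c i ≠ 0 := by
      intro h5
      rw [h5, mul_zero] at h3
      exact hi (by omega)
    have h5 : (n i - n₀ i).natAbs = (m + 1) * (c i).natAbs := by
      rw [h3, Int.natAbs_mul, Int.natAbs_natCast]
    have h6 : 1 ≤ (c i).natAbs := by omega
    have h7 : m + 1 ≤ (n i - n₀ i).natAbs := by rw [h5]; nlinarith
    omega

/-- the constant in the values of `dss` at the origin -/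
noncomputable def B9_K (D : ℝ) : ℂ := nn D 0 / (nn D 0 * nn D 0 ^ (1 / 2 : ℂ))

theorem B9_dss (D : ℝ) (x : Fin 3 → ℂ) (β : Fin 2) : dss D x 0 β = x β.castSucc * B9_K D := by
  unfold dss B9_K
  simp only [Pi.zero_apply, zero_mul, add_zero]
  rw [mul_div_assoc]

theorem B9_K_ne {D : ℝ} (hD : 0 < D) : B9_K D ≠ 0 := by
  have h : nn D 0 ≠ 0 := by
    unfold nn
    simp only [Pi.zero_apply]
    norm_num
    exact hD.ne'
  unfold B9_K
  refine div_ne_zero h (mul_ne_zero h ?_)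
  rw [Ne, Complex.cpow_eq_zero_iff]
  exact fun h' => h h'.1

theorem B9_lim (hT : B9_T1b) {κ d : F} {v0 : F →+* ℝ} {δ : Fin 1 → F} {g : ℕ}
    {bas dua : Fin g → Fin 1 → Fin 3 → F} (hL : LB d δ bas dua)
    {M : (F →+* ℝ) → Matrix (Fin 1) (Fin 1) ℝ} (hS : IsSiegel (Zm κ d v0 bas M 0))
    {e : Fin 1 → Fin 3 → F} (he : ∀ l i, IsIntegral ℤ (e l i)) (β : Fin 2) :
    Tendsto (fun m : ℕ => th1 κ d v0 M (B9_phi e (m + 1)) 0 β) atTop
      (𝓝 (cexp (-(Real.pi : ℂ) * expo κ d v0 M e 0) * dss (v0 d) (pl v0 (e 0)) 0 β)) := by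
  obtain ⟨n₀, hn₀⟩ := (hL.int_iff e).1 he
  have he' : e = B9_pt bas n₀ := hn₀
  subst he'
  set G : (Fin g → ℤ) → ℂ := fun n => cexp (-(Real.pi : ℂ) * expo κ d v0 M (B9_pt bas n) 0) *
    dss (v0 d) (pl v0 (B9_pt bas n 0)) 0 β with hG
  have h1 : ∀ m : ℕ, th1 κ d v0 M (B9_phi (B9_pt bas n₀) (m + 1)) 0 β =
      ∑' n : Fin g → ℤ, B9_phi (B9_pt bas n₀) (m + 1) (B9_pt bas n) * G n := by
    intro m
    unfold th1
    rw [← (B9_inj hL).tsum_eq (f := fun x : Fin 1 → Fin 3 → F =>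
      B9_phi (B9_pt bas n₀) (m + 1) x * cexp (-(Real.pi : ℂ) * expo κ d v0 M x 0) *
        dss (v0 d) (pl v0 (x 0)) 0 β)]
    · apply tsum_congr
      intro n
      rw [hG]
      ring
    · intro x hx
      rw [Function.mem_support] at hx
      have hx1 : B9_phi (B9_pt bas n₀) (m + 1) x ≠ 0 := by
        intro h; rw [h, zero_mul, zero_mul] at hx; exact hx rfl
      unfold B9_phi at hx1
      split_ifs at hx1 with h
      · obtain ⟨y, hy, rfl⟩ := h
        obtain ⟨c, hc⟩ := (hL.int_iff y).1 hy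
        have hc' : y = B9_pt bas c := hc
        rw [hc', B9_lin]
        exact ⟨_, rfl⟩
      · exact absurd rfl hx1
  have h2 : ∑' n : Fin g → ℤ, (if n = n₀ then (1 : ℂ) else 0) * G n = G n₀ := by
    rw [tsum_eq_single n₀]
    · rw [if_pos rfl, one_mul]
    · intro n hn
      rw [if_neg hn, zero_mul]
  simp only [h1]
  have h3 : cexp (-(Real.pi : ℂ) * expo κ d v0 M (B9_pt bas n₀) 0) *
      dss (v0 d) (pl v0 (B9_pt bas n₀ 0)) 0 β = G n₀ := rfl
  rw [h3, ← h2]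
  -- the bound
  set C : ℝ := ‖B9_K (v0 d)‖ * ∑ i, |v0 (bas i 0 β.castSucc)| with hC
  have hsum := hT g 1 one_pos (Zm κ d v0 bas M 0) hS (fun _ => 1) 0 1
  refine tendsto_tsum_of_dominated_convergence (bound := fun n : Fin g → ℤ => C *
      (‖((fun _ => 1 : Sch g 1) (red 1 n))‖ * (1 + ∑ i, |(n i : ℝ)|) ^ 1 *
      ‖cexp (-(Real.pi : ℂ) * qf (Zm κ d v0 bas M 0) (pt 1 n) +
        2 * (Real.pi : ℂ) * I * ∑ i, (0 : Fin g → ℂ) i * pt 1 n i)‖)) (hsum.mul_left C) ?_ ?_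
  · intro n
    refine Tendsto.mul_const _ ?_
    exact tendsto_nhds_of_eventually_eq (B9_phi_pt hL n₀ n)
  · filter_upwards with m n
    have hφ : ‖B9_phi (B9_pt bas n₀) (m + 1) (B9_pt bas n)‖ ≤ 1 := by
      unfold B9_phi
      split_ifs <;> simp
    have hexp : expo κ d v0 M (B9_pt bas n) 0 = qf (Zm κ d v0 bas M 0) (pt 1 n) := by
      have := expo_eq_qf (κ := κ) (d := d) (v0 := v0) bas M 0 (fun i => (n i : ℚ))
      have e1 : (∑ i, (((n i : ℚ)) : F) • bas i) = B9_pt bas n := by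
        unfold B9_pt
        simp only [Rat.cast_intCast]
      rw [e1] at this
      rw [this]
      congr 1
      funext i
      simp [pt]
    have hd : ‖dss (v0 d) (pl v0 (B9_pt bas n 0)) 0 β‖ ≤ C * (1 + ∑ i, |(n i : ℝ)|) := by
      rw [B9_dss, norm_mul, hC]
      have e2 : ‖pl v0 (B9_pt bas n 0) β.castSucc‖ ≤
          (∑ i, |v0 (bas i 0 β.castSucc)|) * (1 + ∑ i, |(n i : ℝ)|) := by
        unfold pl
        rw [Complex.norm_real, B9_pt_apply, map_sum]
        simp only [map_mul, map_intCast]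
        refine (norm_sum_le _ _).trans ?_
        rw [Finset.sum_mul]
        apply Finset.sum_le_sum
        intro i _
        rw [norm_mul, Real.norm_eq_abs, Real.norm_eq_abs, mul_comm]
        apply mul_le_mul_of_nonneg_left _ (abs_nonneg _)
        have := Finset.single_le_sum (f := fun i => |(n i : ℝ)|) (fun j _ => abs_nonneg _)
          (Finset.mem_univ i)
        linarith
      have e3 := mul_le_mul_of_nonneg_right e2 (norm_nonneg (B9_K (v0 d)))
      linarith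
    rw [norm_mul]
    have hS0 : ∑ i, (0 : Fin g → ℂ) i * pt 1 n i = 0 := by simp
    rw [hS0, mul_zero, add_zero, norm_one, one_mul, pow_one, hG]
    simp only
    rw [norm_mul, hexp]
    have h5 : 0 ≤ ‖cexp (-(Real.pi : ℂ) * qf (Zm κ d v0 bas M 0) (pt 1 n))‖ := norm_nonneg _
    calc ‖B9_phi (B9_pt bas n₀) (m + 1) (B9_pt bas n)‖ *
          (‖cexp (-(Real.pi : ℂ) * qf (Zm κ d v0 bas M 0) (pt 1 n))‖ *
            ‖dss (v0 d) (pl v0 (B9_pt bas n 0)) 0 β‖)
        ≤ 1 * (‖cexp (-(Real.pi : ℂ) * qf (Zm κ d v0 bas M 0) (pt 1 n))‖ *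
            (C * (1 + ∑ i, |(n i : ℝ)|))) := by
          apply mul_le_mul hφ _ (by positivity) zero_le_one
          exact mul_le_mul_of_nonneg_left hd h5
      _ = C * ((1 + ∑ i, |(n i : ℝ)|) *
            ‖cexp (-(Real.pi : ℂ) * qf (Zm κ d v0 bas M 0) (pt 1 n))‖) := by ring

/-- the unit vectors -/
def B9_e (F : Type) [Field F] (α : Fin 2) : Fin 1 → Fin 3 → F := fun _ => Pi.single α.castSucc 1

omit [NumberField F] in
theorem B9_e_int (α : Fin 2) (l : Fin 1) (i : Fin 3) : IsIntegral ℤ (B9_e F α l i) := by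
  unfold B9_e
  rw [Pi.single_apply]
  split_ifs
  · exact isIntegral_one
  · exact isIntegral_zero

theorem wedge_ne_of (hT : B9_T1b)
    (h3 : ∀ {κ d : F} {v0 : F →+* ℝ}, Data κ d v0 → ∀ (δ : Fin 1 → F), (∀ l, δ l ≠ 0) →
      ∃ (g : ℕ) (bas dua : Fin g → Fin 1 → Fin 3 → F), LB d δ bas dua)
    (h5 : ∀ {κ d : F} {v0 : F →+* ℝ}, Data κ d v0 → ∀ {g : ℕ} {δ : Fin 1 → F}
      {bas dua : Fin g → Fin 1 → Fin 3 → F}, LB d δ bas dua →
      ∀ {S M : (F →+* ℝ) → Matrix (Fin 1) (Fin 1) ℝ}, MajAll δ v0 S M → ∀ {z : Fin 2 → ℂ},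
      z ∈ Ball (v0 d) → IsSiegel (Zm κ d v0 bas M z))
    {κ d : F} {v0 : F →+* ℝ} (hd : Data κ d v0) {δa δb : Fin 1 → F}
    {Sa Ma Sb Mb : (F →+* ℝ) → Matrix (Fin 1) (Fin 1) ℝ} (ha : MajAll δa v0 Sa Ma)
    (hb : MajAll δb v0 Sb Mb) :
    ∃ φa φb : (Fin 1 → Fin 3 → F) → ℂ, IsSchw φa ∧ IsSchw φb ∧
      th1 κ d v0 Ma φa 0 0 * th1 κ d v0 Mb φb 0 1 - th1 κ d v0 Ma φa 0 1 * th1 κ d v0 Mb φb 0 0 ≠ 0 := by
  obtain ⟨ga, basa, duaa, hLa⟩ := h3 hd δa ha.ne
  obtain ⟨gb, basb, duab, hLb⟩ := h3 hd δb hb.ne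
  have hz : (0 : Fin 2 → ℂ) ∈ Ball (v0 d) := by
    show ‖(0 : Fin 2 → ℂ) 0‖ ^ 2 + ‖(0 : Fin 2 → ℂ) 1‖ ^ 2 < v0 d
    simpa using hd.dpos
  have hSa := h5 hd hLa ha hz
  have hSb := h5 hd hLb hb hz
  have la := fun β => B9_lim hT hLa hSa (B9_e_int (F := F) 0) β
  have lb := fun β => B9_lim hT hLb hSb (B9_e_int (F := F) 1) β
  have hlim := ((la 0).mul (lb 1)).sub ((la 1).mul (lb 0))
  have hval : ∀ α β : Fin 2, dss (v0 d) (pl v0 (B9_e F α 0)) 0 β =
      if α = β then B9_K (v0 d) else 0 := by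
    intro α β
    rw [B9_dss]
    unfold pl B9_e
    rw [Pi.single_apply]
    by_cases h : α = β
    · rw [if_pos h, if_pos (by rw [h])]
      simp
    · rw [if_neg h, if_neg (by rw [Fin.castSucc_inj]; exact fun h' => h h'.symm)]
      simp
  rw [hval 0 0, hval 1 1, hval 0 1, hval 1 0, if_pos rfl, if_pos rfl, if_neg (by decide),
    if_neg (by decide), mul_zero, zero_mul, sub_zero] at hlim
  have hne : cexp (-(Real.pi : ℂ) * expo κ d v0 Ma (B9_e F 0) 0) * B9_K (v0 d) *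
      (cexp (-(Real.pi : ℂ) * expo κ d v0 Mb (B9_e F 1) 0) * B9_K (v0 d)) ≠ 0 :=
    mul_ne_zero (mul_ne_zero (Complex.exp_ne_zero _) (B9_K_ne hd.dpos))
      (mul_ne_zero (Complex.exp_ne_zero _) (B9_K_ne hd.dpos))
  obtain ⟨m, hm⟩ := (hlim.eventually_ne hne).exists
  exact ⟨_, _, B9_schw (B9_e_int 0) (Nat.succ_pos m), B9_schw (B9_e_int 1) (Nat.succ_pos m), hm⟩

end Pool.Agent.helper76.BQ
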